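import Pool.Agent.helper23.F2.Spec

/-! Row AX4 of the closure theorem (MP_26dbae_co). -/

set_option autoImplicit false

open scoped BigOperators

namespace Pool.Agent.F2

open Pool.Agent.helper23.TH

section

variable {V L : Type} {b s : ℕ} (G : LG V L b s) {t : ℕ}

/-- objects of the walk without the first vertex -/
def AX4_sh {t : ℕ} : Ob (t + 1) → Ob (t + 2)
  | .inl i => .inl i.succ
  | .inr j => .inr j.succ

theorem AX4_sh_inj {t : ℕ} : Function.Injective (AX4_sh (t := t)) := by
  rintro (a | a) (b | b) h <;> simp [AX4_sh] at h ⊢ <;> exact h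

theorem AX4_obj (P : Fin (t + 3) → V) (o : Ob (t + 1)) :
    G.obj (fun i : Fin (t + 2) => P i.succ) o = G.obj P (AX4_sh o) := by
  rcases o with i | j
  · rfl
  · rfl

theorem AX4_inner (S : Finset (Fin (t + 3) → V)) (ht : 1 ≤ t) (x y a' : V) (z : L) (Q : Fin (t + 3) → V)
    (hy : Q (Fin.last (t + 1)).castSucc = y) (hl : Q (Fin.last (t + 2)) = a') (haw : aw S x y = Q)
    (hz : z ∈ G.lv y ∨ z ∈ G.le a' y ∨ z ∈ ale G S x y) :
    ∃ o : Ob (t + 1), Inn o ∧ z ∈ G.obj Q (AX4_sh o) := by
  classical
  rcases hz with hz | hz | hz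
  · refine ⟨.inl (Fin.last t).castSucc, ⟨?_, ?_⟩, ?_⟩
    · intro h
      have h1 := congrArg Fin.val (Sum.inl.inj h)
      simp at h1
      omega
    · intro h
      have h1 := congrArg Fin.val (Sum.inl.inj h)
      simp at h1
    · show z ∈ G.lv (Q (Fin.last t).castSucc.succ)
      have : (Fin.last t).castSucc.succ = (Fin.last (t + 1)).castSucc := by
        apply Fin.ext; simp
      rw [this, hy]
      exact hz
  · refine ⟨.inr (Fin.last t), ⟨by simp, by simp⟩, ?_⟩
    show z ∈ G.le (Q (Fin.last t).succ.castSucc) (Q (Fin.last t).succ.succ)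
    have e1 : (Fin.last t).succ.castSucc = (Fin.last (t + 1)).castSucc := by
      apply Fin.ext; simp
    have e2 : (Fin.last t).succ.succ = Fin.last (t + 2) := by
      apply Fin.ext; simp
    rw [e1, e2, hy, hl, G.lsymm]
    exact hz
  · unfold ale at hz
    split_ifs at hz with h
    · rw [Finset.mem_biUnion] at hz
      obtain ⟨o, ho, hz⟩ := hz
      rw [Finset.mem_filter] at ho
      have ho := ho.2
      rcases o with i | j
      · refine ⟨.inl i.castSucc, ⟨?_, ?_⟩, ?_⟩
        · intro h1
          apply ho.1
          have h2 := congrArg Fin.val (Sum.inl.inj h1)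
          congr 1
          apply Fin.ext
          simpa using h2
        · intro h1
          have h2 := congrArg Fin.val (Sum.inl.inj h1)
          have h3 := i.2
          simp at h2
          omega
        · show z ∈ G.lv (Q i.castSucc.succ)
          rw [← haw]
          exact hz
      · refine ⟨.inr j.castSucc, ⟨by simp, by simp⟩, ?_⟩
        show z ∈ G.le (Q j.castSucc.succ.castSucc) (Q j.castSucc.succ.succ)
        rw [← haw]
        exact hz
    · simp at hz

end

theorem AX4 (hAX1 : AX1_stmt) (hAX2 : AX2_stmt) (hWK5 : WK5_stmt) : AX4_stmt := by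
  classical
  intro V L _ b s G t q m m' ρ S ht hAD x z Y hY
  obtain ⟨h1a, h1b, h1c, h1d, h1e, h1f, h1g, h1h⟩ := hAX1 V L b s G t q m m' ρ S ht hAD
  rcases Y.eq_empty_or_nonempty with rfl | ⟨y0, hy0⟩
  · simp
  cases hx : ac G ρ x
  · -- `ac x = false`
    have hB : ∀ y ∈ Y, Bt S x y (aw S x y) := fun y hy => h1f x y (hY y hy).1 hx
    have hac : ∀ y ∈ Y, ac G ρ y = true := by
      intro y hy
      have := (h1d x y (hY y hy).1).1
      rw [hx] at this
      simpa using this
    have hin : ∀ y ∈ Y, ∃ o : Ob (t + 1), Inn o ∧ z ∈ G.obj (aw S x y) (AX4_sh o) := by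
      intro y hy
      obtain ⟨hS, hP1, hP2⟩ := hB y hy
      refine AX4_inner G S ht x y m' z (aw S x y) hP2 (hAD.lst _ hS) rfl ?_
      rcases (hY y hy).2 with h | h
      · have h3 : ρ (G.nm y) ≠ .inl 1 := by
          have := hac y hy
          unfold ac at this
          simpa using this
        unfold alv at h
        rw [if_neg h3, Finset.mem_union] at h
        rcases h with h | h
        · exact Or.inl h
        · exact Or.inr (Or.inl h)
      · exact Or.inr (Or.inr h)
    have hB1 : ∀ y ∈ Y, G.B1 (aw S x y0) (aw S x y) := by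
      intro y hy
      obtain ⟨o0, ho0, hz0⟩ := hin y0 hy0
      obtain ⟨o, ho, hz⟩ := hin y hy
      obtain ⟨hS0, hP0, -⟩ := hB y0 hy0
      obtain ⟨hS1, hP1, -⟩ := hB y hy
      have e1 := hAD.role _ hS0 _ z hz0
      have e2 := hAD.role _ hS1 _ z hz
      have e3 : o0 = o := AX4_sh_inj (e1.symm.trans e2)
      subst e3
      refine ⟨by rw [hAD.fst _ hS0, hAD.fst _ hS1], by rw [hP0, hP1], by rw [hAD.lst _ hS0, hAD.lst _ hS1], o0, ho0, ?_⟩
      rw [AX4_obj, AX4_obj, Finset.not_disjoint_iff]
      exact ⟨z, hz0, hz⟩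
    have hcard : Y.card ≤ (S.filter fun Q => G.B1 (aw S x y0) Q ∨ G.B2 (aw S x y0) Q).card := by
      refine Finset.card_le_card_of_injOn (fun y => aw S x y) ?_ ?_
      · intro y hy
        rw [Finset.mem_coe] at hy
        rw [Finset.mem_coe, Finset.mem_filter]
        exact ⟨(hB y hy).1, Or.inl (hB1 y hy)⟩
      · intro y hy y' hy' h
        rw [Finset.mem_coe] at hy hy'
        have h1 := (hB y hy).2.2
        have h2 := (hB y' hy').2.2
        simp only at h
        rw [h] at h1
        exact h1.symm.trans h2
    exact hcard.trans (hAD.bad _ (hB y0 hy0).1)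
  · -- `ac x = true`
    have hB : ∀ y ∈ Y, Bt S y x (fun i => aw S x y i.rev) := fun y hy => h1g x y (hY y hy).1 hx
    have hac : ∀ y ∈ Y, ac G ρ y = false := by
      intro y hy
      have := (h1d x y (hY y hy).1).1
      rw [hx] at this
      simpa using this
    have hq0 : ∀ y ∈ Y, aw S x y 0 = m' := by
      intro y hy
      have := hAD.lst _ (hB y hy).1
      simpa using this
    have hq1 : ∀ y ∈ Y, aw S x y 1 = x := by
      intro y hy
      have := (hB y hy).2.2
      have e : (Fin.last (t + 1)).castSucc.rev = (1 : Fin (t + 3)) := by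
        apply Fin.ext
        simp [Fin.val_rev]
      simp only at this
      rwa [e] at this
    have hql : ∀ y ∈ Y, aw S x y (Fin.last (t + 2)) = m := by
      intro y hy
      have := hAD.fst _ (hB y hy).1
      simpa using this
    have hqy : ∀ y ∈ Y, aw S x y (Fin.last (t + 1)).castSucc = y := by
      intro y hy
      have := (hB y hy).2.1
      have e : (1 : Fin (t + 3)).rev = (Fin.last (t + 1)).castSucc := by
        apply Fin.ext
        simp [Fin.val_rev]
      simp only at this
      rwa [e] at this
    have hin : ∀ y ∈ Y, ∃ o : Ob (t + 1), Inn o ∧ z ∈ G.obj (aw S x y) (AX4_sh o) := by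
      intro y hy
      refine AX4_inner G S ht x y m z (aw S x y) (hqy y hy) (hql y hy) rfl ?_
      rcases (hY y hy).2 with h | h
      · have h3 : ρ (G.nm y) = .inl 1 := by
          have := hac y hy
          unfold ac at this
          simpa using this
        unfold alv at h
        rw [if_pos h3, Finset.mem_union] at h
        rcases h with h | h
        · exact Or.inl h
        · exact Or.inr (Or.inl h)
      · exact Or.inr (Or.inr h)
    have hrole : ∀ y ∈ Y, (∀ i, ∀ z ∈ G.obj (aw S x y) (.inl i), ρ z = .inl i.rev) ∧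
        (∀ j, ∀ z ∈ G.obj (aw S x y) (.inr j), ρ z = .inr j.rev) := by
      intro y hy
      obtain ⟨-, w1, w2, -⟩ := hWK5 V L b s G (t + 2) (fun i => aw S x y i.rev)
      simp only [Fin.rev_rev] at w1 w2
      constructor
      · intro i z hz
        rw [show aw S x y = fun i => aw S x y i from rfl, w1 i] at hz
        exact hAD.role _ (hB y hy).1 _ z hz
      · intro j z hz
        rw [show aw S x y = fun i => aw S x y i from rfl, w2 j] at hz
        exact hAD.role _ (hB y hy).1 _ z hz
    have hB1 : ∀ y ∈ Y, G.B2 (fun i => aw S x y0 i.rev) (fun i => aw S x y i.rev) := by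
      intro y hy
      obtain ⟨o0, ho0, hz0⟩ := hin y0 hy0
      obtain ⟨o, ho, hz⟩ := hin y hy
      have e3 : o0 = o := by
        rcases o0 with i0 | j0 <;> rcases o with i | j
        · have e1 := (hrole y0 hy0).1 _ z hz0
          have e2 := (hrole y hy).1 _ z hz
          have e4 := Sum.inl.inj (e1.symm.trans e2)
          rw [Fin.rev_inj, Fin.succ_inj] at e4
          rw [e4]
        · have e1 := (hrole y0 hy0).1 _ z hz0
          have e2 := (hrole y hy).2 _ z hz
          exact absurd (e1.symm.trans e2) (by simp)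
        · have e1 := (hrole y0 hy0).2 _ z hz0
          have e2 := (hrole y hy).1 _ z hz
          exact absurd (e1.symm.trans e2) (by simp)
        · have e1 := (hrole y0 hy0).2 _ z hz0
          have e2 := (hrole y hy).2 _ z hz
          have e4 := Sum.inr.inj (e1.symm.trans e2)
          rw [Fin.rev_inj, Fin.succ_inj] at e4
          rw [e4]
      subst e3
      unfold LG.B2
      simp only [Fin.rev_rev]
      refine ⟨(hq0 y0 hy0).trans (hq0 y hy).symm, (hq1 y0 hy0).trans (hq1 y hy).symm, (hql y0 hy0).trans (hql y hy).symm,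
        o0, ho0, ?_⟩
      rw [AX4_obj, AX4_obj, Finset.not_disjoint_iff]
      exact ⟨z, hz0, hz⟩
    have hcard : Y.card ≤ (S.filter fun Q => G.B1 (fun i => aw S x y0 i.rev) Q ∨ G.B2 (fun i => aw S x y0 i.rev) Q).card := by
      refine Finset.card_le_card_of_injOn (fun y => fun i => aw S x y i.rev) ?_ ?_
      · intro y hy
        rw [Finset.mem_coe] at hy
        rw [Finset.mem_coe, Finset.mem_filter]
        exact ⟨(hB y hy).1, Or.inr (hB1 y hy)⟩
      · intro y hy y' hy' h
        rw [Finset.mem_coe] at hy hy'
        have h1 := (hB y hy).2.1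
        have h2 := (hB y' hy').2.1
        simp only at h
        rw [h] at h1
        exact h1.symm.trans h2
    exact hcard.trans (hAD.bad _ (hB y0 hy0).1)

end Pool.Agent.F2
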