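import Pool.Agent.helper23.F2.Spec

/-! Row CL9 of the closure theorem (MP_26dbae_co). -/

set_option autoImplicit false

open scoped BigOperators

namespace Pool.Agent.F2

open Pool.Agent.helper23.TH

theorem CL9 (hAX1 : AX1_stmt) (hAX3 : AX3_stmt) (hAX4 : AX4_stmt) (hAX5 : AX5_stmt) (hAX6 : AX6_stmt) : CL9_stmt := by
  classical
  intro V L _ b s G t q m m' ρ S Δ ht hAD hS hΔ
  obtain ⟨h1a, h1b, h1c, h1d, h1e, h1f, h1g, h1h⟩ := hAX1 V L b s G t q m m' ρ S ht hAD
  obtain ⟨h3a, h3b, h3c⟩ := hAX3 V L b s G t q m m' ρ S ht hAD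
  have h4 := hAX4 V L b s G t q m m' ρ S ht hAD
  obtain ⟨h5a, h5b⟩ := hAX5 V L b s G t q m m' ρ S Δ ht hAD hΔ
  let G' : LG {x // x ∈ aU S} L ((2 * t + 3) * b) q :=
    { A := fun u v => aA S u.1 v.1
      symm := fun u v h => h1e u.1 v.1 h
      c := fun v => ac G ρ v.1
      bip := fun u v h => (h1d u.1 v.1 h).1
      lv := fun v => alv G m m' ρ v.1
      le := fun u v => ale G S u.1 v.1
      lsymm := fun u v => h3a u.1 v.1
      nm := fun v => G.nm v.1
      nmi := fun u v h => Subtype.ext (G.nmi h)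
      nmm := fun v => by
        unfold alv
        split_ifs
        · exact Finset.mem_union_left _ (G.nmm v.1)
        · exact Finset.mem_union_left _ (G.nmm v.1)
      bv := fun v => h3c v.1
      be := fun u v => h3b u.1 v.1
      sp := fun v x S' h => by
        have := h4 v.1 x (S'.map (Function.Embedding.subtype _)) (by
          intro w hw
          rw [Finset.mem_map] at hw
          obtain ⟨w', hw', rfl⟩ := hw
          exact h w' hw')
        rwa [Finset.card_map] at this }
  refine ⟨aU S, G', ?_, h5a, h5b, ?_⟩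
  · obtain ⟨P, hP⟩ := hS
    refine ⟨P 1, ?_⟩
    unfold aU
    rw [Finset.mem_filter]
    exact ⟨Finset.mem_univ _, Or.inl ⟨P, hP, rfl⟩⟩
  · rintro H ⟨φ, hc, hcol⟩
    refine hAX6 V L b s G t q m m' ρ S H (fun w => (φ w).1) ht hAD hS (fun w => (φ w).2) (fun e => hc.adj e) ?_ ?_ ?_ ?_
    · intro w w' hww
      exact hc.dis (.inl w) (.inl w') (by simpa using hww)
    · intro w e
      exact hc.dis (.inl w) (.inr e) (by simp)
    · intro e e' hee
      exact hc.dis (.inr e) (.inr e') (by simpa using hee)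
    · exact hcol

end Pool.Agent.F2
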